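import Pool.Agent.H52.AC.Defs
import Pool.Agent.H8.AS.Defs

/-!
# MP_821da1_nt, AllCurves: pairs of branches, only the real points at infinity carry `k`

`PS`: the pairs of branches in `S1 × S2` carrying the same embedding of `k`.
-/

namespace Pool.Agent.H52.AS

open Finset Polynomial Pool.Agent.H72.ES Pool.Agent.H87.SA2 Pool.Agent.H8.KF Pool.Agent.H8.AS

open Classical in
/-- the pairs of branches carrying the same embedding of `k` -/
noncomputable def PS {k : Type} [Field k] {f1 f2 : ℤ[X][X]} {d1 d2 : ℕ} {pd1 : PData f1 d1}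
    {pd2 : PData f2 d2} (kp1 : KapS k pd1) (kp2 : KapS k pd2) : Finset (Fin d1 × Fin d2) :=
  univ.filter fun p => (p.1 ∈ kp1.S ∧ p.2 ∈ kp2.S) ∧ kp1.kap p.1 = kp2.kap p.2

end Pool.Agent.H52.AS
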