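import Pool.Agent.H52.AC.PRM
import Pool.Agent.H52.AS.Defs

/-! # [AS-PRM] Complex conjugation of the branches -/

namespace Pool.Agent.H52.AS

open Finset Polynomial Pool.Agent.H87.SA2 Pool.Agent.H8.AS Pool.Agent.H52.AC

theorem exists_conj {k : Type} [Field k] [NumberField k] {f : ℤ[X][X]} {d : ℕ} {pd : PData f d}
    (kp : KapS k pd) : ∃ c : Fin d → Fin d, (∀ i, c (c i) = i) ∧
      (∀ i m, PowerSeries.coeff m (pd.x (c i)) =
        (starRingEnd ℂ) (PowerSeries.coeff m (pd.x i))) ∧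
      ∀ i ∈ kp.S, c i ∈ kp.S ∧ ∀ z, kp.kap (c i) z = (starRingEnd ℂ) (kp.kap i z) := by
  obtain ⟨σ, hσ⟩ : ∃ σ : AA →+* ℂ, ∀ a : AA, σ a = (starRingEnd ℂ) (a : ℂ) :=
    ⟨(starRingEnd ℂ).comp (algebraMap AA ℂ), fun a => rfl⟩
  obtain ⟨π, hπ⟩ := perm_gal pd σ
  have h1 : ∀ i m, PowerSeries.coeff m (pd.x (π i)) =
      (starRingEnd ℂ) (PowerSeries.coeff m (pd.x i)) := by
    intro i m
    have h2 := hπ i m ⟨PowerSeries.coeff m (pd.x i), coeff_mem pd i m⟩ rfl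
    rw [hσ] at h2
    exact h2.symm
  refine ⟨π, fun i => ?_, h1, fun i hi => ?_⟩
  · apply pd.x_inj
    ext m
    rw [h1, h1, Complex.conj_conj]
  · obtain ⟨h3, h4⟩ := kp.gal σ i hi (π i) (hπ i)
    refine ⟨h3, fun z => ?_⟩
    have h2 := h4 z ⟨kp.kap i z, kap_mem (kp.kap i) z⟩ rfl
    rw [hσ] at h2
    exact h2.symm

end Pool.Agent.H52.AS
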