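import Pool.Agent.H52.AC.CEL
import Pool.Agent.H52.AS.PRM

/-! # [AS-CEL] Small cell sums vanish, with all coefficients in the cell -/

namespace Pool.Agent.H52.AS

open Finset Polynomial Pool.Agent.H87.SA2 Pool.Agent.H8.AS Pool.Agent.H52.AC

theorem cell_zeroS {k : Type} [Field k] [NumberField k] {f1 f2 : ℤ[X][X]} {d1 d2 : ℕ}
    {pd1 : PData f1 d1} {pd2 : PData f2 d2} (kp1 : KapS k pd1) (kp2 : KapS k pd2) (D1 D2 : ℕ)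
    (A : ℕ → ℕ → ℕ → ℕ → ℤ) (K L : ℕ)
    (h : ∀ p ∈ PS kp1 kp2,
      ‖Vc D1 D2 A pd1.q pd1.e pd2.q pd2.e (pd1.x p.1) (pd2.x p.2) K L‖ < 1) :
    ∀ p ∈ PS kp1 kp2, ∀ r < pd1.e, ∀ s < pd2.e,
      Bc D1 D2 A pd1.q pd1.e pd2.q pd2.e (pd1.x p.1) (pd2.x p.2) (pd1.e * K + r)
        (pd2.e * L + s) = 0 := by
  classical
  have hPP : ∀ q : Fin d1 × Fin d2, q ∈ PS kp1 kp2 ↔
      (q.1 ∈ kp1.S ∧ q.2 ∈ kp2.S) ∧ kp1.kap q.1 = kp2.kap q.2 := by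
    intro q
    unfold PS
    rw [Finset.mem_filter]
    exact ⟨fun h => h.2, fun h => ⟨Finset.mem_univ _, h⟩⟩
  have hz : ∀ p : {p // p ∈ PS kp1 kp2},
      Vc D1 D2 A pd1.q pd1.e pd2.q pd2.e (pd1.x p.1.1) (pd2.x p.1.2) K L = 0 := by
    refine liou_zero (fun p : {p // p ∈ PS kp1 kp2} =>
      Vc D1 D2 A pd1.q pd1.e pd2.q pd2.e (pd1.x p.1.1) (pd2.x p.1.2) K L) ?_ ?_ ?_
    · intro p
      exact Vc_int (pd1.integral p.1.1) (pd2.integral p.1.2) D1 D2 A K L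
    · intro σ p
      obtain ⟨π1, hπ1⟩ := perm_gal pd1 σ
      obtain ⟨π2, hπ2⟩ := perm_gal pd2 σ
      have hmem : ((π1 p.1.1, π2 p.1.2) : Fin d1 × Fin d2) ∈ PS kp1 kp2 := by
        rw [hPP]
        obtain ⟨⟨hi, hj⟩, h0⟩ := (hPP p.1).1 p.2
        obtain ⟨hi', h3⟩ := kp1.gal σ p.1.1 hi (π1 p.1.1) (hπ1 p.1.1)
        obtain ⟨hj', h4⟩ := kp2.gal σ p.1.2 hj (π2 p.1.2) (hπ2 p.1.2)
        refine ⟨⟨hi', hj'⟩, ?_⟩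
        apply RingHom.ext
        intro z
        have h1 : σ (⟨kp1.kap p.1.1 z, kap_mem _ z⟩ : AA) = kp1.kap (π1 p.1.1) z := h3 z _ rfl
        have h2 : σ (⟨kp1.kap p.1.1 z, kap_mem _ z⟩ : AA) = kp2.kap (π2 p.1.2) z :=
          h4 z _ (by rw [← h0])
        exact h1.symm.trans h2
      exact ⟨⟨(π1 p.1.1, π2 p.1.2), hmem⟩, fun a ha =>
        Vc_gal σ pd1.q pd1.e pd2.q pd2.e (coeff_mem pd1 p.1.1) (coeff_mem pd2 p.1.2)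
          (hπ1 p.1.1) (hπ2 p.1.2) D1 D2 A K L a ha⟩
    · intro p
      exact h p.1 p.2
  intro p hp
  refine fourier_zero pd1.e_pos pd2.e_pos (fun r s =>
    Bc D1 D2 A pd1.q pd1.e pd2.q pd2.e (pd1.x p.1) (pd2.x p.2) (pd1.e * K + r)
        (pd2.e * L + s)) ?_
  intro ζ ξ hζ hξ
  obtain ⟨ρ1, hρ1⟩ := perm_rot pd1 hζ
  obtain ⟨ρ2, hρ2⟩ := perm_rot pd2 hξ
  have hmem : ((ρ1 p.1, ρ2 p.2) : Fin d1 × Fin d2) ∈ PS kp1 kp2 := by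
    rw [hPP]
    obtain ⟨⟨hi, hj⟩, h0⟩ := (hPP p).1 hp
    obtain ⟨hi', h3⟩ := kp1.rot ζ p.1 hi (ρ1 p.1) hζ (hρ1 p.1)
    obtain ⟨hj', h4⟩ := kp2.rot ξ p.2 hj (ρ2 p.2) hξ (hρ2 p.2)
    refine ⟨⟨hi', hj'⟩, ?_⟩
    change kp1.kap (ρ1 p.1) = kp2.kap (ρ2 p.2)
    rw [h3, h4]
    exact h0
  have h0 := hz ⟨(ρ1 p.1, ρ2 p.2), hmem⟩
  change Vc D1 D2 A pd1.q pd1.e pd2.q pd2.e (pd1.x (ρ1 p.1)) (pd2.x (ρ2 p.2)) K L = 0 at h0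
  rw [← hρ1 p.1, ← hρ2 p.2, Vc_rot hζ hξ] at h0
  exact h0

end Pool.Agent.H52.AS
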