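import Pool.Agent.H52.AS.PRM

/-! # [AS-FIB] The number of pairs of branches with the same embedding of `k` -/

namespace Pool.Agent.H52.AS

open Finset Polynomial Pool.Agent.H87.SA2 Pool.Agent.H8.AS Pool.Agent.H52.AC

private lemma fib_lift {k : Type} [Field k] [NumberField k] (φ ψ : k →+* ℂ) :
    ∃ (φ0 : k →+* AA) (σ : AA →+* ℂ), (∀ z, ((φ0 z : AA) : ℂ) = φ z) ∧ ∀ z, σ (φ0 z) = ψ z := by
  let φ0 : k →+* AA := φ.codRestrict AA.toSubring (fun z => kap_mem φ z)
  let _i : Algebra k AA := φ0.toAlgebra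
  let _i : Algebra k ℂ := ψ.toAlgebra
  have : IsScalarTower ℚ k AA := IsScalarTower.of_algebraMap_eq' (Subsingleton.elim _ _)
  have : Algebra.IsAlgebraic ℚ AA := algebraicClosure.isAlgebraic ℚ ℂ
  have : Algebra.IsAlgebraic k AA := Algebra.IsAlgebraic.tower_top (K := ℚ) k
  let σ : AA →ₐ[k] ℂ := IsAlgClosed.lift
  refine ⟨φ0, σ.toRingHom, fun z => rfl, fun z => ?_⟩
  exact σ.commutes z

/-- a permutation mapping a finite set into itself maps only its elements into it -/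
theorem fib_perm {d : ℕ} (π : Equiv.Perm (Fin d)) (S : Finset (Fin d)) (h : ∀ i ∈ S, π i ∈ S)
    (i : Fin d) : π i ∈ S ↔ i ∈ S := by
  refine ⟨fun hi => ?_, h i⟩
  have h1 : S.image π = S := by
    apply Finset.eq_of_subset_of_card_le
    · intro j hj
      obtain ⟨l, hl, rfl⟩ := Finset.mem_image.1 hj
      exact h l hl
    · rw [Finset.card_image_of_injective _ π.injective]
  rw [← h1] at hi
  obtain ⟨l, hl, hli⟩ := Finset.mem_image.1 hi
  rw [← π.injective hli]
  exact hl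

open Classical in
theorem fib_eq {k : Type} [Field k] [NumberField k] {f : ℤ[X][X]} {d : ℕ} {pd : PData f d}
    (kp : KapS k pd) (φ ψ : k →+* ℂ) :
    (kp.S.filter fun i => kp.kap i = φ).card = (kp.S.filter fun i => kp.kap i = ψ).card := by
  obtain ⟨φ0, σ, h0, h1⟩ := fib_lift φ ψ
  obtain ⟨π, hπ⟩ := perm_gal pd σ
  have hS : ∀ i, π i ∈ kp.S ↔ i ∈ kp.S :=
    fib_perm π kp.S fun i hi => (kp.gal σ i hi (π i) (hπ i)).1
  refine Finset.card_equiv π (fun i => ?_)
  rw [mem_filter, mem_filter, hS]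
  constructor
  · rintro ⟨hi, h⟩
    refine ⟨hi, ?_⟩
    apply RingHom.ext
    intro z
    have h2 := (kp.gal σ i hi (π i) (hπ i)).2 z (φ0 z) (by rw [h0, h])
    rw [← h2, h1]
  · rintro ⟨hi, h⟩
    refine ⟨hi, ?_⟩
    apply RingHom.ext
    intro z
    have h2 := (kp.gal σ i hi (π i) (hπ i)).2 z ⟨kp.kap i z, kap_mem (kp.kap i) z⟩ rfl
    rw [h, ← h1 z] at h2
    have h3 := σ.injective h2
    rw [← h0 z, ← h3]

theorem card_PS {k : Type} [Field k] [NumberField k] {f1 f2 : ℤ[X][X]} {d1 d2 : ℕ}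
    {pd1 : PData f1 d1} {pd2 : PData f2 d2} (kp1 : KapS k pd1) (kp2 : KapS k pd2) :
    (PS kp1 kp2).card * Module.finrank ℚ k ≤ d1 * d2 := by
  classical
  obtain ⟨φ₀⟩ : Nonempty (k →+* ℂ) := inferInstance
  obtain ⟨N2, hN2⟩ : ∃ N2, N2 = (kp2.S.filter fun j => kp2.kap j = φ₀).card := ⟨_, rfl⟩
  have h1 : ∀ φ : k →+* ℂ, (kp2.S.filter fun j => kp2.kap j = φ).card = N2 := by
    intro φ
    rw [hN2]
    have := fib_eq kp2 φ φ₀
    exact this
  have h2 : kp2.S.card = Module.finrank ℚ k * N2 := by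
    have h3 := Finset.card_eq_sum_card_fiberwise (f := kp2.kap) (s := kp2.S)
      (t := (univ : Finset (k →+* ℂ))) (fun _ _ => mem_univ _)
    rw [h3, Finset.sum_congr rfl (fun φ _ => h1 φ), sum_const, card_univ,
      NumberField.Embeddings.card k ℂ, smul_eq_mul]
  have h4 : (PS kp1 kp2).card = kp1.S.card * N2 := by
    have h5 : (PS kp1 kp2).card = ∑ i ∈ kp1.S, (kp2.S.filter fun j => kp2.kap j = kp1.kap i).card := by
      rw [← card_sigma]
      refine card_bij (fun p _ => ⟨p.1, p.2⟩) ?_ ?_ ?_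
      · intro p hp
        unfold PS at hp
        rw [mem_filter] at hp
        rw [mem_sigma, mem_filter]
        exact ⟨hp.2.1.1, hp.2.1.2, hp.2.2.symm⟩
      · intro p _ q _ h
        have h6 := congrArg (fun s : (_ : Fin d1) × Fin d2 => (s.1, s.2)) h
        exact h6
      · rintro ⟨i, j⟩ h
        rw [mem_sigma, mem_filter] at h
        refine ⟨(i, j), ?_, rfl⟩
        unfold PS
        rw [mem_filter]
        exact ⟨mem_univ _, ⟨h.1, h.2.1⟩, h.2.2.symm⟩
    rw [h5, Finset.sum_congr rfl (fun i _ => h1 (kp1.kap i)), sum_const, smul_eq_mul]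
  have h6 : kp1.S.card ≤ d1 := by
    have := Finset.card_le_univ kp1.S
    rwa [Fintype.card_fin] at this
  have h7 : kp2.S.card ≤ d2 := by
    have := Finset.card_le_univ kp2.S
    rwa [Fintype.card_fin] at this
  rw [h4]
  calc kp1.S.card * N2 * Module.finrank ℚ k = kp1.S.card * (Module.finrank ℚ k * N2) := by ring
    _ = kp1.S.card * kp2.S.card := by rw [← h2]
    _ ≤ d1 * d2 := Nat.mul_le_mul h6 h7

end Pool.Agent.H52.AS
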