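import Pool.Agent.H52.AC.PTF
import Pool.Agent.H8.AS.Defs

/-! # The facts about a point above the threshold, for curves with `k` at the real points at infinity

As in `H52/AC/PTF.lean`; the structure `CrvS` has the same fields as `CrvA` apart from `kp`. -/

namespace Pool.Agent.H52.AS

open Finset Polynomial Pool.Agent.H72.ES Pool.Agent.H87.SA2 Pool.Agent.H8.AW Pool.Agent.H8.AS
  Pool.Agent.H52.AC

private theorem ptf_cS {n : ℕ} (hn : 4 ≤ n) : 10 ^ 6 * n ≤ cA n ∧ 10 ^ 6 * n.factorial ≤ cA n := by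
  have hf : 1 ≤ n.factorial := Nat.factorial_pos n
  have h1 : 1 ≤ n ^ 5 := Nat.one_le_pow _ _ (by omega)
  have h2 : 1 ≤ 20 * n ^ 2 := by nlinarith
  have h3 : n ≤ n ^ 5 := Nat.le_self_pow (by norm_num) n
  unfold cA
  constructor
  · calc 10 ^ 6 * n = 1 * (10 ^ 6 * n * 1) := by ring
      _ ≤ 20 * n ^ 2 * (10 ^ 6 * n ^ 5 * n.factorial) := by gcongr
  · calc 10 ^ 6 * n.factorial = 1 * (10 ^ 6 * 1 * n.factorial) := by ring
      _ ≤ 20 * n ^ 2 * (10 ^ 6 * n ^ 5 * n.factorial) := by gcongr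

theorem norml_ofS {k : Type} [Field k] {n d b : ℕ} {F : ℕ → ℕ → ℤ} (C : CrvS k n d b F) :
    Norml d (b ^ n) (lead d F) F := by
  have hb := C.b2
  have hdn := C.dn
  have h4 := C.d4
  exact
    { hn := C.d4
      hQ := (Nat.pow_le_pow_left hb d).trans (Nat.pow_le_pow_right (by omega) hdn)
      lead_eq := rfl
      top := C.lead
      bound := fun i j _ => (C.le i j).trans (by
        have h1 : b ≤ b ^ n := Nat.le_self_pow (by omega) b
        exact_mod_cast h1) }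

theorem pt_factsS {k : Type} [Field k] {n d b : ℕ} {F : ℕ → ℕ → ℤ} (C : CrvS k n d b F)
    {x y : ℤ} {T : ℂ} {i : Fin d} (h : ev d F x y = 0)
    (hT : ((C.pd.q : ℂ) * T) ^ C.pd.e * (x : ℂ) = 1)
    (hi : evz T (C.pd.x i) = (y : ℂ) / (x : ℂ)) (hb : (b : ℝ) ^ cA n ≤ |(x : ℝ)|) :
    C.pd.R * ‖T‖ ≤ 1 / 2 ∧ evy d F x y ≠ 0 ∧
      |((evy d F x y : ℤ) : ℝ)| ≤ |(x : ℝ)| ^ n ∧ 4 * (2 * C.pd.R) ^ C.pd.e ≤ |(x : ℝ)| ∧
      x ≠ 0 := by
  have hb2 := C.b2
  have hd4 := C.d4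
  have hdn := C.dn
  have hn4 : 4 ≤ n := hd4.trans hdn
  have hbR : (2 : ℝ) ≤ b := by exact_mod_cast hb2
  have hb1 : (1 : ℝ) ≤ b := by linarith
  have hR2 := C.pd.R_ge
  have hRb := C.R_le
  have hR0 : 0 < C.pd.R := by linarith
  have hq1 : (1 : ℝ) ≤ C.pd.q := by exact_mod_cast C.pd.q_pos
  have he1 := C.pd.e_pos
  obtain ⟨hc1, hc2⟩ := ptf_cS hn4
  have hen : C.pd.e ≤ n.factorial := C.e_le.trans (Nat.factorial_le hdn)
  have hfac : 1 ≤ n.factorial := Nat.factorial_pos n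
  -- (4)
  have h4 : 4 * (2 * C.pd.R) ^ C.pd.e ≤ |(x : ℝ)| := by
    refine le_trans ?_ hb
    calc 4 * (2 * C.pd.R) ^ C.pd.e ≤ (b * b) * (b * b) ^ C.pd.e := by
          have h5 : (4 : ℝ) ≤ b * b := by nlinarith
          gcongr
      _ = (b : ℝ) ^ (2 + 2 * C.pd.e) := by
          rw [pow_add, pow_mul, pow_two]
      _ ≤ (b : ℝ) ^ cA n := by
          apply pow_le_pow_right₀ hb1
          omega
  have hxpos : 0 < |(x : ℝ)| := by
    refine lt_of_lt_of_le ?_ h4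
    positivity
  have hx0 : x ≠ 0 := by
    intro h0
    rw [h0, Int.cast_zero, abs_zero] at hxpos
    exact lt_irrefl _ hxpos
  have hx1 : 1 ≤ |(x : ℝ)| := by
    refine le_trans ?_ h4
    have : (1 : ℝ) ≤ (2 * C.pd.R) ^ C.pd.e := one_le_pow₀ (by linarith)
    linarith
  -- (1)
  have hnorm : ((C.pd.q : ℝ) * ‖T‖) ^ C.pd.e * |(x : ℝ)| = 1 := by
    have h5 := congrArg norm hT
    rw [norm_mul, norm_pow, norm_mul, norm_one, Complex.norm_natCast, Complex.norm_intCast] at h5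
    exact h5
  have h1 : C.pd.R * ‖T‖ ≤ 1 / 2 := by
    by_contra hcon
    push Not at hcon
    have h5 : 1 < (2 * C.pd.R * ‖T‖) ^ C.pd.e := one_lt_pow₀ (by linarith) (by omega)
    have h6 : (2 * C.pd.R * ‖T‖) ^ C.pd.e ≤
        (2 * C.pd.R) ^ C.pd.e * ((C.pd.q : ℝ) * ‖T‖) ^ C.pd.e := by
      rw [← mul_pow]
      apply pow_le_pow_left₀ (by positivity)
      have h7 : ‖T‖ ≤ (C.pd.q : ℝ) * ‖T‖ := le_mul_of_one_le_left (norm_nonneg _) hq1
      exact mul_le_mul_of_nonneg_left h7 (by positivity)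
    have h8 : (2 * C.pd.R) ^ C.pd.e * ((C.pd.q : ℝ) * ‖T‖) ^ C.pd.e ≤ 1 := by
      rw [← hnorm, mul_comm]
      apply mul_le_mul_of_nonneg_left _ (by positivity)
      have : 0 ≤ (2 * C.pd.R) ^ C.pd.e := by positivity
      linarith
    linarith
  refine ⟨h1, ?_, ?_, h4, hx0⟩
  · obtain ⟨u, v, c, hc, hbez, _, hle⟩ := C.bez
    refine evy_ne_zero u v hc hbez hle h ?_
    have h5 : (b : ℝ) + 2 ≤ |(x : ℝ)| := by
      refine le_trans ?_ hb
      calc (b : ℝ) + 2 ≤ (b : ℝ) ^ 2 := by nlinarith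
        _ ≤ (b : ℝ) ^ cA n := pow_le_pow_right₀ hb1 (by omega)
    exact_mod_cast h5
  · have h5 : ‖evz T (C.pd.x i)‖ ≤ 2 * C.pd.R := by
      refine evz_le hR0.le hR0.le h1 fun m => ?_
      rw [mul_comm, ← pow_succ]
      exact C.pd.growth i m
    rw [hi, norm_div, Complex.norm_intCast, Complex.norm_intCast, div_le_iff₀ hxpos] at h5
    have h6 : |(y : ℝ)| ≤ (2 * b) * |(x : ℝ)| := h5.trans (by gcongr)
    have h7 : ((d : ℝ) + 1) ^ 2 * d * b * (2 * b) ^ d ≤ |(x : ℝ)| := by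
      refine le_trans ?_ hb
      have h8 : d + 1 ≤ 2 ^ d := Nat.lt_two_pow_self
      have h9 : (d : ℝ) + 1 ≤ (b : ℝ) ^ d := by
        have h10 : ((d : ℝ) + 1) ≤ 2 ^ d := by exact_mod_cast h8
        exact h10.trans (pow_le_pow_left₀ (by norm_num) hbR d)
      have h10 : (d : ℝ) ≤ (b : ℝ) ^ d := by linarith
      calc ((d : ℝ) + 1) ^ 2 * d * b * (2 * b) ^ d
          ≤ ((b : ℝ) ^ d) ^ 2 * (b : ℝ) ^ d * b * (b * b) ^ d := by gcongr
        _ = (b : ℝ) ^ (5 * d + 1) := by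
            rw [← pow_two, ← pow_mul, ← pow_mul, ← pow_add, ← pow_succ, ← pow_add]
            congr 1
            ring
        _ ≤ (b : ℝ) ^ cA n := pow_le_pow_right₀ hb1 (by omega)
    have h8 := evy_pow (n := d) (b := b) (F := F) (by omega) C.le (by linarith) h6 hx0 h7
    exact h8.trans (pow_le_pow_right₀ hx1 hdn)

end Pool.Agent.H52.AS
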