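import Pool.Agent.H52.AS.TWO

/-! # Two exceptional points of the same type repel each other -/

namespace Pool.Agent.H52.AS

open Finset Polynomial Pool.Agent.H72.ES Pool.Agent.H87.SA2 Pool.Agent.H8.KF Pool.Agent.H8.AW
  Pool.Agent.H8.AS Pool.Agent.H52.AC

/-- Two integer points above the thresholds, on curves with `k` at the real points at infinity, on
branches of the same type: the larger one is at most a fixed power of the smaller one. -/
theorem repelS {k : Type} [Field k] [NumberField k] (hk : 3 ≤ Module.finrank ℚ k)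
    {τ : k →+* ℝ} {n : ℕ} {x1 y1 x2 y2 : ℤ} (h1 : ExcS k τ n (cA n) x1 y1)
    (h2 : ExcS k τ n (cA n) x2 y2) : |x2| ≤ |x1| ^ wA n := by
  obtain ⟨d1, b1, F1, C1, i, T1, hz1, hT1, hs1, hi, hk1, hb1⟩ := h1
  obtain ⟨d2, b2, F2, C2, j, T2, hz2, hT2, hs2, hj, hk2, hb2⟩ := h2
  by_contra hcon
  push Not at hcon
  have hlt : |(x1 : ℝ)| ^ wA n ≤ |(x2 : ℝ)| := by
    have h3 : ((|x1| ^ wA n : ℤ) : ℝ) < ((|x2| : ℤ) : ℝ) := by exact_mod_cast hcon
    push_cast at h3
    exact h3.le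
  have hij : (i, j) ∈ PS C1.kp C2.kp := by
    classical
    unfold PS
    rw [Finset.mem_filter]
    exact ⟨Finset.mem_univ _, ⟨hi, hj⟩, hk1.trans hk2.symm⟩
  exact two_pointS hk C1 C2 hij hz1 hz2 hT1 hT2 hs1.tsum_eq hs2.tsum_eq hb1 hb2 hlt

end Pool.Agent.H52.AS
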