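import Pool.Agent.H52.AC.SGE
import Pool.Agent.H52.AS.FIB
import Pool.Agent.H52.AS.CEL

/-! # [AS-SGE] The auxiliary polynomial -/

namespace Pool.Agent.H52.AS

open Finset Polynomial Pool.Agent.H87.SA2 Pool.Agent.H8.KF Pool.Agent.H8.AS Pool.Agent.H52.AC

theorem aux_existsS {k : Type} [Field k] [NumberField k] (hk : 3 ≤ Module.finrank ℚ k)
    {n d1 d2 la E : ℕ} (hn : 4 ≤ n) (hd1 : d1 ≤ n) (hd2 : d2 ≤ n) (hd1' : 1 ≤ d1)
    (hd2' : 1 ≤ d2) (hla : 60 * n ≤ la) (hnE : n ≤ E) {f1 f2 : ℤ[X][X]} {pd1 : PData f1 d1}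
    {pd2 : PData f2 d2} (kp1 : KapS k pd1) (kp2 : KapS k pd2) (he1 : pd1.e ≤ E) (he2 : pd2.e ≤ E)
    {B1 B2 : ℝ} (hB1 : 2 * pd1.q * pd1.R ≤ B1) (hB1' : 3000 * (n : ℝ) ^ 4 * (E : ℝ) ^ 2 ≤ B1)
    (hB2 : 2 * pd2.q * pd2.R ≤ B2) :
    ∃ A : ℕ → ℕ → ℕ → ℕ → ℤ, (∃ a b p q, A a b p q ≠ 0) ∧ SuppA n d1 d2 la A ∧
      (∀ a b p q, |((A a b p q : ℤ) : ℝ)| ≤ B1 ^ (129 * n * E * la) * B2 ^ (126 * n * E)) ∧
      ∀ i j, (i, j) ∈ PS kp1 kp2 → ∀ k l, k / pd1.e + la * (l / pd2.e) < TA n la →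
        Bc (20 * n * la) (20 * n) A pd1.q pd1.e pd2.q pd2.e (pd1.x i) (pd2.x j) k l = 0 := by
  classical
  obtain ⟨c1, hc1, hc1x, hc1k⟩ := AS.exists_conj kp1
  obtain ⟨c2, hc2, hc2x, hc2k⟩ := AS.exists_conj kp2
  have hPP : ∀ q : Fin d1 × Fin d2, q ∈ PS kp1 kp2 ↔
      (q.1 ∈ kp1.S ∧ q.2 ∈ kp2.S) ∧ kp1.kap q.1 = kp2.kap q.2 := by
    intro q
    unfold PS
    rw [Finset.mem_filter]
    exact ⟨fun h => h.2, fun h => ⟨Finset.mem_univ _, h⟩⟩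
  have hn0 : 1 ≤ n := by omega
  have hla0 : 240 ≤ la := by omega
  have hnla : 20 * n ≤ 20 * n * la := Nat.le_mul_of_pos_right _ (by omega)
  have hq1 : (1 : ℝ) ≤ pd1.q := by exact_mod_cast pd1.q_pos
  have hq2 : (1 : ℝ) ≤ pd2.q := by exact_mod_cast pd2.q_pos
  have hB1one : 1 ≤ B1 := by
    have h1 := pd1.R_ge
    nlinarith
  have hB2one : 1 ≤ B2 := by
    have h1 := pd2.R_ge
    nlinarith
  have hE1 : (pd1.e : ℝ) ≤ E := by exact_mod_cast he1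
  have hE2 : (pd2.e : ℝ) ≤ E := by exact_mod_cast he2
  obtain ⟨N1, hN1⟩ : ∃ N1, N1 = 20 * n * la - n := ⟨_, rfl⟩
  obtain ⟨N2, hN2⟩ : ∃ N2, N2 = 19 * n := ⟨_, rfl⟩
  let V : {c // c ∈ cells n la} → {p // p ∈ PS kp1 kp2} →
      (Fin N1 × Fin d1 × Fin N2 × Fin d2) → ℂ := fun c p m =>
    VV (20 * n * la) (20 * n) pd1.q pd1.e pd2.q pd2.e (pd1.x p.1.1) (pd2.x p.1.2) c.1.1 c.1.2
      m.1 m.2.1 m.2.2.1 m.2.2.2
  have hcjmem : ∀ p : {p // p ∈ PS kp1 kp2}, ((c1 p.1.1, c2 p.1.2) : Fin d1 × Fin d2) ∈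
      PS kp1 kp2 := by
    intro p
    rw [hPP]
    obtain ⟨⟨hi, hj⟩, h0⟩ := (hPP p.1).1 p.2
    obtain ⟨hi', h1⟩ := hc1k _ hi
    obtain ⟨hj', h2⟩ := hc2k _ hj
    refine ⟨⟨hi', hj'⟩, ?_⟩
    apply RingHom.ext
    intro z
    change kp1.kap (c1 p.1.1) z = kp2.kap (c2 p.1.2) z
    rw [h1, h2, h0]
  let cj : {p // p ∈ PS kp1 kp2} → {p // p ∈ PS kp1 kp2} := fun p =>
    ⟨(c1 p.1.1, c2 p.1.2), hcjmem p⟩
  have hcj : ∀ p, cj (cj p) = p := by
    intro p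
    apply Subtype.ext
    apply Prod.ext
    · exact hc1 _
    · exact hc2 _
  have hconj : ∀ c p m, V c (cj p) m = (starRingEnd ℂ) (V c p m) := by
    intro c p m
    exact VV_conj _ _ _ _ (hc1x p.1.1) (hc2x p.1.2) _ _ _ _ _ _ _ _
  obtain ⟨M0, hM0⟩ : ∃ M0 : ℝ, M0 = (E : ℝ) * E * (B1 ^ (41 * n * E * la + n) *
    B2 ^ ((40 * n + 1) * E + n)) := ⟨_, rfl⟩
  have hM0one : 1 ≤ M0 := by
    rw [hM0]
    have h1 : (1 : ℝ) ≤ E := by exact_mod_cast (by omega : 1 ≤ E)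
    have h2 : 1 ≤ B1 ^ (41 * n * E * la + n) := one_le_pow₀ hB1one
    have h3 : 1 ≤ B2 ^ ((40 * n + 1) * E + n) := one_le_pow₀ hB2one
    exact one_le_mul_of_one_le_of_one_le (one_le_mul_of_one_le_of_one_le h1 h1)
      (one_le_mul_of_one_le_of_one_le h2 h3)
  have hVle : ∀ c p m, ‖V c p m‖ ≤ M0 := by
    intro c p m
    have hc := c.2
    unfold cells at hc
    rw [Finset.mem_filter, Finset.mem_product, Finset.mem_range, Finset.mem_range] at hc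
    have hK : c.1.1 + 1 ≤ 41 * n * la := (Nat.succ_le_of_lt hc.1.1).trans (TA_le hn hla)
    have hL : c.1.2 + 1 ≤ 40 * n + 1 := Nat.succ_le_of_lt hc.1.2
    have h1 := VV_le (e1 := pd1.e) (e2 := pd2.e) pd1.q_pos pd2.q_pos
      (by linarith [pd1.R_ge] : (1:ℝ) ≤ pd1.R) (by linarith [pd2.R_ge] : (1:ℝ) ≤ pd2.R) hB1 hB2
      (pd1.growth p.1.1) (pd2.growth p.1.2) (n := n) (20 * n * la) (20 * n) c.1.1 c.1.2
      m.1 m.2.1 m.2.2.1 m.2.2.2 (by have := m.2.1.2; omega) (by have := m.2.2.2.2; omega)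
    refine h1.trans ?_
    rw [hM0]
    have h2 : B1 ^ (pd1.e * (c.1.1 + 1) + n) ≤ B1 ^ (41 * n * E * la + n) := by
      apply pow_le_pow_right₀ hB1one
      have : pd1.e * (c.1.1 + 1) ≤ E * (41 * n * la) := Nat.mul_le_mul he1 hK
      have h3 : E * (41 * n * la) = 41 * n * E * la := by ring
      omega
    have h3 : B2 ^ (pd2.e * (c.1.2 + 1) + n) ≤ B2 ^ ((40 * n + 1) * E + n) := by
      apply pow_le_pow_right₀ hB2one
      have : pd2.e * (c.1.2 + 1) ≤ E * (40 * n + 1) := Nat.mul_le_mul he2 hL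
      have h3 : E * (40 * n + 1) = (40 * n + 1) * E := by ring
      omega
    have h4 : 0 ≤ B1 ^ (pd1.e * (c.1.1 + 1) + n) := by positivity
    have h5 : 0 ≤ B2 ^ (pd2.e * (c.1.2 + 1) + n) := by positivity
    have h6 : 0 ≤ B1 ^ (41 * n * E * la + n) := by positivity
    have h7 : (0 : ℝ) ≤ E := by positivity
    exact mul_le_mul (mul_le_mul hE1 hE2 (by positivity) h7)
      (mul_le_mul h2 h3 h5 h6) (mul_nonneg h4 h5) (mul_nonneg h7 h7)
  have hcardι : Fintype.card (Fin N1 × Fin d1 × Fin N2 × Fin d2) = N1 * d1 * (N2 * d2) := by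
    rw [Fintype.card_prod, Fintype.card_prod, Fintype.card_prod, Fintype.card_fin,
      Fintype.card_fin, Fintype.card_fin, Fintype.card_fin]
    ring
  have hN1pos : 0 < N1 := by omega
  have hcard0 : 0 < Fintype.card (Fin N1 × Fin d1 × Fin N2 × Fin d2) := by
    rw [hcardι]
    have : 0 < N2 := by omega
    positivity
  have hcard1 : (1 : ℝ) ≤ (Fintype.card (Fin N1 × Fin d1 × Fin N2 × Fin d2) : ℝ) := by
    exact_mod_cast hcard0
  have hcardle : (Fintype.card (Fin N1 × Fin d1 × Fin N2 × Fin d2) : ℝ) ≤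
      380 * (n : ℝ) ^ 4 * la := by
    have h1 : N1 * d1 * (N2 * d2) ≤ (20 * n * la) * n * ((19 * n) * n) := by
      have h2 : N1 ≤ 20 * n * la := by omega
      gcongr
      omega
    have h2 : (20 * n * la) * n * ((19 * n) * n) = 380 * n ^ 4 * la := by ring
    rw [h2] at h1
    rw [hcardι]
    exact_mod_cast h1
  obtain ⟨M, hM⟩ : ∃ M : ℝ, M = (Fintype.card (Fin N1 × Fin d1 × Fin N2 × Fin d2) : ℝ) * M0 :=
    ⟨_, rfl⟩
  have hMone : 1 ≤ M := by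
    rw [hM]
    exact one_le_mul_of_one_le_of_one_le hcard1 hM0one
  have h3P : 3 * (PS kp1 kp2).card ≤ d1 * d2 := by
    refine le_trans ?_ (card_PS kp1 kp2)
    rw [mul_comm 3]
    exact Nat.mul_le_mul_left _ hk
  obtain ⟨A', hA'0, hA'le, hA's⟩ := siegel_small V cj hcj hconj hMone
    (by
      intro c p
      calc ∑ m, ‖V c p m‖ ≤ ∑ _m : Fin N1 × Fin d1 × Fin N2 × Fin d2, M0 :=
            Finset.sum_le_sum fun m _ => hVle c p m
        _ = M := by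
            rw [Finset.sum_const, Finset.card_univ, nsmul_eq_mul, hM])
    (by
      rw [Fintype.card_coe, Fintype.card_coe, hcardι, hN1, hN2]
      exact count hn hla h3P) hcard0
  have hext : ∀ (K L : ℕ), (K, L) ∈ cells n la → ∀ p ∈ PS kp1 kp2,
      ‖Vc (20 * n * la) (20 * n) (extA A') pd1.q pd1.e pd2.q pd2.e (pd1.x p.1) (pd2.x p.2) K L‖
        < 1 := by
    intro K L hKL p hp
    rw [Vc_ext (by omega) (by omega)]
    exact hA's ⟨(K, L), hKL⟩ ⟨p, hp⟩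
  refine ⟨extA A', ?_, ?_, ?_, ?_⟩
  · obtain ⟨m, hm⟩ : ∃ m, A' m ≠ 0 := by
      by_contra hcon
      push Not at hcon
      exact hA'0 (funext hcon)
    refine ⟨m.1, m.2.1, m.2.2.1, m.2.2.2, ?_⟩
    unfold extA
    rw [dif_pos ⟨⟨m.1.2, m.2.1.2⟩, ⟨m.2.2.1.2, m.2.2.2.2⟩⟩]
    exact hm
  · intro a b p q h
    unfold extA at h
    by_cases hc : (a < N1 ∧ b < d1) ∧ (p < N2 ∧ q < d2)
    · omega
    · rw [dif_neg hc] at h
      exact absurd rfl h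
  · intro a b p q
    unfold extA
    by_cases hc : (a < N1 ∧ b < d1) ∧ (p < N2 ∧ q < d2)
    · rw [dif_pos hc]
      refine (hA'le _).trans ?_
      refine sge_num hn hla hnE hB1' hB2one ?_ (by linarith)
      rw [hM, hM0]
      have h1 : 0 ≤ (E : ℝ) * E * (B1 ^ (41 * n * E * la + n) * B2 ^ ((40 * n + 1) * E + n)) := by
        rw [← hM0]
        linarith
      refine (mul_le_mul_of_nonneg_right hcardle h1).trans (le_of_eq ?_)
      rw [pow_two (E : ℝ)]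
    · rw [dif_neg hc, Int.cast_zero, abs_zero]
      positivity
  · intro i j hij k l hkl
    have hmem := mem_cells hn hla hkl
    have h1 := cell_zeroS kp1 kp2 (20 * n * la) (20 * n) (extA A') (k / pd1.e) (l / pd2.e)
      (hext _ _ hmem) (i, j) hij (k % pd1.e)
      (Nat.mod_lt _ pd1.e_pos) (l % pd2.e) (Nat.mod_lt _ pd2.e_pos)
    rw [Nat.div_add_mod, Nat.div_add_mod] at h1
    exact h1

end Pool.Agent.H52.AS
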